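import Mathlib
import Pool.Agent.Lib.MP_71be78_ag.OZero
import Pool.Agent.Lib.MP_71be78_ag.Concrete

/-!
# Vanishing of the cohomology of the sheaf of differential operators of odd-dimensional quadrics

`Q_{2m+1} ⊂ ℙ^{2m+2}` is the quadric `∑_{i=0}^m x_i y_i + z^2 = 0` over a field `k` of
characteristic `p > 0`.  We show that `H^i(Q_{2m+1}, 𝒟) = 0` for all `i > 0`, where `𝒟` is the
sheaf of differential operators, the cohomology being computed by the Čech complex of the standard
affine covering `{x_a ≠ 0}`.
-/

set_option autoImplicit false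

namespace Pool.Agent.Results.MP_71be78_ag.OddQuadrics

open MvPolynomial

/-- The index set of the homogeneous coordinates of `ℙ^{2m+2}`: `Sum.inl i` is `x_i`,
`Sum.inr (Sum.inl i)` is `y_i` (for `0 ≤ i ≤ m`) and `Sum.inr (Sum.inr ())` is `z`. -/
abbrev Coord (m : ℕ) : Type := Fin (m + 1) ⊕ Fin (m + 1) ⊕ Unit

/-- The quadratic form `∑_{i=0}^m x_i y_i + z^2` defining `Q_{2m+1} ⊂ ℙ^{2m+2}`. -/
noncomputable def quadric (k : Type*) [Field k] (m : ℕ) : MvPolynomial (Coord m) k :=
  (∑ i : Fin (m + 1), X (Sum.inl i) * X (Sum.inr (Sum.inl i))) + X (Sum.inr (Sum.inr ())) ^ 2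

/-- The function field of `Q_{2m+1}`: on the open subset `x_0 ≠ 0` the quadric is the affine space
with coordinates `x_1, …, x_m, y_1, …, y_m, z` (we put `x_0 = 1`, and then
`y_0 = -(∑_{i ≥ 1} x_i y_i + z^2)`). -/
abbrev FunField (k : Type*) [Field k] (m : ℕ) : Type _ :=
  FractionRing (MvPolynomial (Fin m ⊕ Fin m ⊕ Unit) k)

/-- The affine coordinates `x_1, …, x_m, y_1, …, y_m, z` (here `Sum.inl j` is `x_{j+1}` and
`Sum.inr (Sum.inl j)` is `y_{j+1}`), as elements of the function field. -/
noncomputable def aff (k : Type*) [Field k] (m : ℕ) (a : Fin m ⊕ Fin m ⊕ Unit) : FunField k m :=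
  algebraMap (MvPolynomial (Fin m ⊕ Fin m ⊕ Unit) k) (FunField k m) (X a)

/-- The homogeneous coordinates of the generic point of `Q_{2m+1}`, normalized by `x_0 = 1`, so
that `y_0 = -(∑_{i ≥ 1} x_i y_i + z^2)`. -/
noncomputable def coord (k : Type*) [Field k] (m : ℕ) : Coord m → FunField k m
  | Sum.inl i => Fin.cases 1 (fun j => aff k m (Sum.inl j)) i
  | Sum.inr (Sum.inl i) =>
      Fin.cases (-((∑ j : Fin m, aff k m (Sum.inl j) * aff k m (Sum.inr (Sum.inl j))) +
          aff k m (Sum.inr (Sum.inr ())) ^ 2))
        (fun j => aff k m (Sum.inr (Sum.inl j))) i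
  | Sum.inr (Sum.inr u) => aff k m (Sum.inr (Sum.inr u))

/-- The ring of regular functions on the open subset `U_J = {x_b ≠ 0 for all b ∈ J}` of
`Q_{2m+1}`, as a subring of the function field: it is generated by the quotients `x_a / x_b` with
`b ∈ J`. -/
noncomputable def regular (k : Type*) [Field k] (m : ℕ) (J : Set (Coord m)) :
    Subalgebra k (FunField k m) :=
  Algebra.adjoin k {w | ∃ a, ∃ b ∈ J, w = coord k m a / coord k m b}

/-- The differential operators on `U_J`: as `U_J` is smooth, `𝒟(U_J)` is the union over `e` of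
`End_{𝒪^{p^e}}(𝒪(U_J))`; such an endomorphism extends uniquely to a `p^e`-linear endomorphism of
the function field (see `extend_operator`), and we regard it as such.  So these are the `k`-linear
endomorphisms of the function field that are linear over the field of `p^e`-th powers for some `e`
and preserve the ring of regular functions on `U_J`. -/
def diffOp (k : Type*) [Field k] (p m : ℕ) (J : Set (Coord m)) :
    Set (FunField k m →ₗ[k] FunField k m) :=
  {φ | (∃ e : ℕ, ∀ u v : FunField k m, φ (u ^ (p ^ e) * v) = u ^ (p ^ e) * φ v) ∧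
    ∀ u ∈ regular k m J, φ u ∈ regular k m J}

/-- The Čech differential, on cochains indexed by tuples of coordinates. -/
def cech {I V : Type*} [AddCommGroup V] {n : ℕ} (h : (Fin n → I) → V) (b : Fin (n + 1) → I) : V :=
  ∑ j : Fin (n + 1), (-1 : ℤ) ^ (j : ℕ) • h (fun i => b (j.succAbove i))

open Pool.Agent.Lib.MP_71be78_ag

lemma coord_eq (k : Type*) [Field k] (m : ℕ) (a : Coord m) : coord k m a = (quadSetup k m).ξ a := by
  rcases a with a | a | a
  · refine Fin.cases ?_ (fun i => ?_) a
    · show (1 : FunField k m) = algebraMap _ _ (xi' k m (Sum.inl 0))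
      rw [xi'_x0, map_one]
    · rfl
  · refine Fin.cases ?_ (fun i => ?_) a
    · show _ = algebraMap _ _ (xi' k m (Sum.inr (Sum.inl 0)))
      rw [xi'_y0, map_neg]
      unfold qf
      rw [map_add, map_sum, map_pow]
      simp only [map_mul]
      rfl
    · rfl
  · rfl

/-- Sanity check: a homogeneous polynomial vanishes at `coord` exactly when it is a multiple of the
quadratic form, i.e. `coord` is the generic point of the quadric. -/
theorem vanish_iff (k : Type*) [Field k] (m : ℕ) (d : ℕ) (g : MvPolynomial (Coord m) k)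
    (hg : g.IsHomogeneous d) : aeval (coord k m) g = 0 ↔ quadric k m ∣ g := by
  have hc : coord k m = (quadSetup k m).ξ := funext (coord_eq k m)
  rw [hc]
  constructor
  · intro h
    obtain ⟨u, -, hu⟩ := (quadSetup k m).ker (d : ℤ) g (by
      intro γ hγ
      have h1 := hg hγ
      unfold dg
      rw [← h1]
      rw [Finsupp.weight_apply]
      simp [Finsupp.sum_fintype]) h
    exact ⟨u, hu⟩
  · rintro ⟨u, rfl⟩
    rw [map_mul]
    have : aeval (quadSetup k m).ξ (quadric k m) = 0 := (quadSetup k m).evf
    rw [this, zero_mul]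

/-- Sanity check: for nonempty `J`, every `k`-linear endomorphism of the ring of regular functions
on `U_J` which is linear over its `p^e`-th powers extends uniquely to a `k`-linear endomorphism of
the function field which is linear over the `p^e`-th powers. -/
theorem extend_operator (k : Type*) [Field k] (p : ℕ) [Fact p.Prime] [CharP k p] (m e : ℕ)
    (J : Set (Coord m)) (hJ : J.Nonempty) (ψ : regular k m J →ₗ[k] regular k m J)
    (hψ : ∀ u v : regular k m J, ψ (u ^ (p ^ e) * v) = u ^ (p ^ e) * ψ v) :
    ∃! φ : FunField k m →ₗ[k] FunField k m,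
      (∀ u v : FunField k m, φ (u ^ (p ^ e) * v) = u ^ (p ^ e) * φ v) ∧
      ∀ u : regular k m J, φ (u : FunField k m) = (ψ u : FunField k m) := by
  have h : ∀ R : Subalgebra k (FunField k m), R = (quadSetup k m).RJ J →
      ∀ (ψ : R →ₗ[k] R) (_ : ∀ u v : R, ψ (u ^ (p ^ e) * v) = u ^ (p ^ e) * ψ v),
      ∃! φ : FunField k m →ₗ[k] FunField k m,
      (∀ u v : FunField k m, φ (u ^ (p ^ e) * v) = u ^ (p ^ e) * φ v) ∧
      ∀ u : R, φ (u : FunField k m) = (ψ u : FunField k m) := by
    rintro R rfl ψ hψ
    exact (quadSetup k m).extend_RJ hJ ψ hψ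
  refine h _ ?_ ψ hψ
  unfold regular Setup.RJ
  simp only [coord_eq]

/-- **Vanishing of the higher cohomology of the sheaf of differential operators on odd-dimensional
quadrics, in every characteristic.**  For every field `k` of characteristic `p > 0` and all `m, i`,
every Čech cocycle of degree `i + 1` of the sheaf of differential operators of `Q_{2m+1}` with
respect to the standard covering `{x_a ≠ 0}` is a coboundary. -/
theorem result (k : Type*) [Field k] (p : ℕ) [Fact p.Prime] [CharP k p] (m i : ℕ)
    (c : (Fin (i + 2) → Coord m) → (FunField k m →ₗ[k] FunField k m))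
    (hc : ∀ b, c b ∈ diffOp k p m (Set.range b))
    (hcocycle : ∀ b : Fin (i + 3) → Coord m, cech c b = 0) :
    ∃ h : (Fin (i + 1) → Coord m) → (FunField k m →ₗ[k] FunField k m),
      (∀ b, h b ∈ diffOp k p m (Set.range b)) ∧
      ∀ b : Fin (i + 2) → Coord m, cech h b = c b := by
  classical
  have hreg : ∀ (J : Set (Coord m)) (u : FunField k m),
      u ∈ regular k m J ↔ u ∈ (quadSetup k m).OO 0 J := by
    intro J u
    rw [(quadSetup k m).OO_zero J, Subalgebra.mem_toSubmodule]
    unfold regular Setup.RJ
    simp only [coord_eq]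
  have hD : ∀ (J : Set (Coord m)) (φ : FunField k m →ₗ[k] FunField k m),
      φ ∈ diffOp k p m J ↔ φ ∈ (quadSetup k m).DD p J := by
    intro J φ
    unfold diffOp Setup.DD
    simp only [Set.mem_ofPred_eq, hreg]
  have hN : 3 ≤ Fintype.card (Ix (m + 1)) := by
    simp only [Fintype.card_sum, Fintype.card_fin, Fintype.card_unit]
    omega
  obtain ⟨h, hh1, hh2⟩ := (quadSetup k m).main p hN (fun e => exists_tau (m + 1) e) i c
    (fun b => (hD _ _).mp (hc b)) (funext hcocycle)
  exact ⟨h, fun b => (hD _ _).mpr (hh1 b), fun b => congrFun hh2 b⟩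

end Pool.Agent.Results.MP_71be78_ag.OddQuadrics
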